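import Pool.Agent.K9h86.CP.Ma

set_option autoImplicit false

/-! # The ratio of the two central critical values of self-dual motives

Let `F` be a totally imaginary number field, `E` a totally real number field, and `M₀` a polarised
pure motive of rank `n` and even weight `w = 2 m` over `F` with coefficients in `E`, such that the
motive `M = Res_{F/ℚ} M₀` has no middle Hodge type. Then `m` and `m + 1` are critical for `L(s, M)`,
and they are exchanged by the functional equation `s ↦ w + 1 - s`. The theorem says that the
equality of Q1

  `L(m, M) / L(m + 1, M) = (1 ⊗ i^(d/2) Δ_F)^n`  in `(E ⊗ ℂ) / E^×`

is true for this pair if the L-function has the expected functional equation, with the conductor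
`|D_F|^n N(𝔣)` (`𝔣` is the conductor of `M₀`) and a sign which does not depend on `ι` (it is `+1`
for orthogonal motives).

The proof. The functional equation says that `L(m, ι, M) = ± √(|D_F|^n N(𝔣)) L(m + 1, ι, M)`. The
rank `n` is even as there is no middle Hodge type, so the right hand side `(i^(d/2) Δ_F)^n` is a
rational number, and what has to be shown is that `N(𝔣)` is a square. By Serre's theorem on the
conductors of orthogonal representations `𝔣` times the conductor of `det M₀` is the square of an
ideal. Now `det M₀` is, up to a Tate twist, the character of `F(√b)` over `F` for some `b` in `F`.
The comparison of the discriminants of the form on the Betti and the de Rham realisation gives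
`(-1)^(n/2) c ⊗ b ∈ ((E ⊗ F)^×)²`, where `c ∈ E^×` is the discriminant on the Betti realisation:
as there is no middle Hodge type, half of the Hodge filtration of the de Rham realisation is a
Lagrangian submodule over `E ⊗ F`, so the discriminant is `(-1)^(n/2)` there. By the polarisation
`c` is totally positive. These properties of `M₀` are part of the data `SelfDualMotive` (in
`Pool.Agent.K9h86.CP.Df`), with `u = (-1)^(n/2) c`. The norm from `E ⊗ F` to `E` of the square root
`β` of `u ⊗ b` satisfies `N(β)² = u^d N(b)` with the even degree `d` of `F`, so that `N(b)` is the
square of `N(β) / u^(d/2)` in `E`. As `F` is totally imaginary, the norm form is nonnegative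
(`norm_form_nonneg`, by helper17), so this element of `E` has the same sign at all embeddings of
`E`; its square is rational; so it is itself a rational number (`norm_square`), and `N_{F/ℚ}(b)` is
the square of a rational number. Finally the discriminant of `F(√b)` is the norm of `b` up to
squares (`isSquare_discr_of_basis`), so the norm of the relative discriminant of `F(√b)` over `F`,
the conductor of `det M₀`, is a square (`isSquare_different`).

Related: P. Deligne, Valeurs de fonctions L et périodes d'intégrales (1979), section 5 (Théorème 5.6), on the
compatibility of his conjecture with the functional equation, modulo his conjecture 6.6 on motives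
of rank one. With the relation of the periods `c⁺` and `c⁻` from the problem file it gives an
equality of this kind; here it is proved directly from the properties of `M₀` which are listed
above. -/

namespace Pool.Agent.Results.MP_c63a07_nt.CentralPair

open NumberField Pool.Agent.K9h86 Pool.Agent.K9h86.CP

/-- **The equality of Q1 at the central pair.** Let `F` be a totally imaginary number field, `E` a
totally real number field, and let `M` be the data of a self-dual pure motive `M₀` of rank `n` and
even weight `2 m` over `F` with coefficients in `E` such that `Res_{F/ℚ} M₀` has no middle Hodge
type. Let `f ι` be the meromorphic continuations of its L-functions, and suppose that the completed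
L-functions have the functional equation, with a sign `ε` that does not depend on `ι`. Then the
equality of Q1 is true for the integers `m` and `m + 1`, for every choice of the square root
`Δ_F`. -/
theorem result {F : Type} [Field F] [NumberField F] [IsTotallyComplex F]
    {E : Type} [Field E] [NumberField E] [IsTotallyReal E] (M : SelfDualMotive F E) {ε : ℤ}
    (hε : ε = 1 ∨ ε = -1) (f : (E →+* ℂ) → ℂ → ℂ) (_hf : ∀ ι, IsL M ι (f ι))
    (hfe : ∀ ι, FunctionalEquation M ι ε (f ι)) :
    (∃ δ : ℂ, RT.IsDelta F δ) ∧ CentralEquality M f :=
  ⟨exists_delta F, main M hε hfe⟩

end Pool.Agent.Results.MP_c63a07_nt.CentralPair
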