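import Pool.Agent.K9h67.EW.Bm

set_option autoImplicit false

/-! # Ratios of successive critical values and base changes of a degree divisible by `N`

Let `F` be a totally imaginary number field and `M₀` a pure motive of rank `n` over `F` with
coefficients in the number field `E`, such that the motive `M = Res_{F/ℚ} M₀` has no middle Hodge
type. As in the theorem `RatiosDescend` of this problem only the data of `M₀` in
`Pool.Agent.K9h86.RT.MotiveOver` are used (in `Pool.Agent.K9h86.RT.Df`): the weight, the rank, the
Hodge numbers of `M`, and the characteristic polynomials of the Frobenius elements, with
coefficients in `E`, at the primes of `F` outside a finite set. For a finite extension `k` of `F`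
the question Q1 for the base change `M_k` asks if (`RatioEquality M k m`)

  `L(m, M_k) / L(m + 1, M_k) = (1 ⊗ i^([k : ℚ] / 2) Δ_k)^n`  in `(E ⊗ ℂ) / E^×`

for the completed L-functions, if `m` and `m + 1` are critical and `L(m + 1, M_k) ≠ 0`.

**Test extensions.** Let `S` be a finite set of prime numbers. A test field (`TestField S k₀`) is a
totally real number field `k₀` in which all primes of `S` split completely (`SplitsAt r k₀`: the
minimal polynomials of the elements of `k₀` split over `ℚ_r`). We suppose that no subfield of `F`
but `ℚ` is a test field. This is no condition if `ℚ` is the maximal totally real subfield of `F`,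
and in general one has to put some primes in `S`. A test extension of `F` (`IsTestExtension S F k`)
is an extension `k = F · k₀` of `F` with a test field `k₀`, and `[k : F] = [k₀ : ℚ]`; the field `F`
itself is one (`k₀ = ℚ`).

**The theorem.** Let `a` be any natural number. Suppose that for every odd prime number `l` there is
a number `N`, prime to `l` and not divisible by `2 ^ (a + 1)`, such that the equality of Q1 at `m`
holds for the base changes of `M₀` to all the test extensions of `F` of a degree divisible by `N`.
For example this may be known for one number `N = 2 ^ a`, as large as one likes, or (`a = 0`) for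
two odd numbers `N` which are coprime, as large as one likes. Nothing is supposed about `M₀` itself.

(0) Then the equality holds for the base changes of `M₀` to all the test extensions of `F` of a
degree divisible by `2 ^ a`. For `a = 0` these are `M₀` itself and its base changes to all the test
extensions.

(1) If the equality holds also for one test extension of odd degree, then it holds for `M₀` and for
its base changes to all the test extensions of `F`.

(2) Without this extension of odd degree, and if the L-functions of `M₀` continue to `ℂ` (as Q1
supposes): they have values at `m` and `m + 1` which are not zero, the power with the exponent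
`2 ^ a` of their quotient `R` is what Q1 predicts (up to one factor in `E^×`), and for all test
extensions `k` the quotient for `M_k` is `e_k R^[k : F]` with `e_k ∈ E^×`. So Q1 for all the base
changes `M_k` is reduced to the extraction of one root of order `2 ^ a`.

**The proof** is that of `MP_100fe7_nt.DivisibleDegreeTestFields`: new totally real Galois
extensions `K₀` of `ℚ` (generated by the square roots of all the conjugates of a suitable totally
positive element), in which Solomon's induction theorem, relations for dihedral groups of order
eight, and biquadratic fields give enough relations between the permutation characters. The class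
of the test fields is closed under these constructions, and all of them are disjoint from `F`, so
the Galois group of `F · K₀` over `F` is that of `K₀` over `ℚ` (`Pool.Agent.K9h76.LB.exists_comp`,
helper76). The group in which the relations are used is that of the families of functions modulo
those which continue to `ℂ` with a quotient of the values at `m` and `m + 1` in `E^×` (`SR`). The
numbers `(i^([k : ℚ] / 2) Δ_k)^n` are treated by `Pool.Agent.K9h86.RT.delta_key` (helper86).

For (0) one uses extensions of a test field `k₀` with Galois group `(ℤ/p)²` for the odd prime
factors `p` of the numbers `N` (`Pool.Agent.H391R2.R1.exists_split_field`): the relation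
`p · 1 = ∑ Ind 1 - Ind 1` expresses the `p`-th power of the class for `k₀` by the classes for fields
of a degree divisible by `p [k₀ : ℚ]` (`step_p`, `kill`). -/

namespace Pool.Agent.Results.MP_c63a07_nt.DivisibleDegreeBaseChange

open NumberField Pool.Agent.K9h86.RT Pool.Agent.K9h67.EV Pool.Agent.K9h67.EW

/-- **Ratios of successive critical values and base changes of a degree divisible by `N`.** Let
`F` be a totally imaginary number field, `M` the data of a pure motive `M₀` over `F` with
coefficients in the number field `E` such that `Res_{F/ℚ} M₀` has no middle Hodge type, `m` and
`m + 1` critical, `a` a natural number, and `S` a finite set of primes such that no subfield of `F`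
but `ℚ` is a test field (totally real, the primes of `S` split completely). Suppose that for every
odd prime number `l` there is a number `N`, prime to `l` and not divisible by `2 ^ (a + 1)`, such
that the equality of Q1 at `m` holds for the base change of `M₀` to every test extension of `F` of a
degree divisible by `N`.

(0) Then it holds for every test extension of a degree divisible by `2 ^ a`.

(1) If the equality holds for one test extension `k₁` of `F` of odd degree, then it holds for all
test extensions `k` of `F` (also for `k = F`).

(2) In any case, if the L-functions of `M₀` continue to `ℂ`, then there are `x ∈ E^×` and numbers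
`R ι`, the quotients of the values of the completed L-functions of `M₀` at `m` and `m + 1`, with
`R ι ^ (2 ^ a) = ι(x) ((i^([F : ℚ] / 2) Δ_F)^n)^(2 ^ a)` for all embeddings `ι` of `E`, and for
every test extension `k` of `F` there is `e ∈ E^×` such that for all `ι` the quotient for the base
change of `M₀` to `k` is `ι(e) (R ι)^[k : F]`. -/
theorem result {F : Type} [Field F] [NumberField F] [IsTotallyComplex F]
    {E : Type} [Field E] [NumberField E] (M : MotiveOver F E) (m : ℤ)
    (hm : IsCritical M m) (hm' : IsCritical M (m + 1)) (a : ℕ) (S : Finset ℕ)
    (hS : ∀ L : IntermediateField ℚ F, TestField S L → L = ⊥)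
    (hD : ∀ l : ℕ, l.Prime → l ≠ 2 → ∃ N : ℕ, ¬ l ∣ N ∧ ¬ 2 ^ (a + 1) ∣ N ∧
      ∀ (k : Type) [Field k] [NumberField k] [Algebra F k], IsTestExtension S F k →
        N ∣ Module.finrank F k → RatioEquality M k m) :
    (∀ (k : Type) [Field k] [NumberField k] [Algebra F k], IsTestExtension S F k →
      2 ^ a ∣ Module.finrank F k → RatioEquality M k m) ∧
    (∀ (k₁ : Type) [Field k₁] [NumberField k₁] [Algebra F k₁], IsTestExtension S F k₁ →
      Odd (Module.finrank F k₁) → RatioEquality M k₁ m →
        ∀ (k : Type) [Field k] [NumberField k] [Algebra F k], IsTestExtension S F k →
          RatioEquality M k m) ∧
    ((∀ ι : E →+* ℂ, ∃ f : ℂ → ℂ, IsL M ι F f) →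
      ∃ (x : E) (R : (E →+* ℂ) → ℂ) (δ : ℂ), x ≠ 0 ∧ IsDelta F δ ∧
        (∀ ι, HasRatio M ι F m (R ι) ∧ R ι ^ 2 ^ a
          = ι x * ((Complex.I ^ (Module.finrank ℚ F / 2) * δ) ^ M.n) ^ 2 ^ a) ∧
        ∀ (k : Type) [Field k] [NumberField k] [Algebra F k], IsTestExtension S F k →
          ∃ e : E, e ≠ 0 ∧ ∀ ι : E →+* ℂ, HasRatio M ι k m (ι e * R ι ^ Module.finrank F k)) :=
  main_bm M hm hm' a S hS hD

end Pool.Agent.Results.MP_c63a07_nt.DivisibleDegreeBaseChange
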