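import Pool.Agent.K9h76.LB.Mn
import Pool.Agent.K9h76.LB.Two

set_option autoImplicit false

/-! # Ratios of successive critical values and base changes of large degree

Let `F` be a totally imaginary number field and `M₀` a pure motive of rank `n` over `F` with
coefficients in the number field `E`, such that the motive `M = Res_{F/ℚ} M₀` has no middle Hodge
type. As in the theorem `RatiosDescend` of this problem only the data of `M₀` in
`Pool.Agent.K9h86.RT.MotiveOver` are used (in `Pool.Agent.K9h86.RT.Df`): the weight, the rank, the
Hodge numbers of `M`, and the characteristic polynomials of the Frobenius elements, with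
coefficients in `E`, at the primes of `F` outside a finite set. For a finite extension `k` of `F`
the question Q1 for the base change `M_k` asks if (`RatioEquality M k m`)

  `L(m, M_k) / L(m + 1, M_k) = (1 ⊗ i^([k : ℚ] / 2) Δ_k)^n`  in `(E ⊗ ℂ) / E^×`

for the completed L-functions, if `m` and `m + 1` are critical and `L(m + 1, M_k) ≠ 0`.

The theorem: let `p` and `q` be two different odd primes, and let for each of them a finite set of
primes `S` and a number field `F₀` containing `F` be given. If the equality is true for the
extensions `k = F · k₀` of `F` of degree `p` or `p²`, and of degree `q` or `q²`, where `k₀` is a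
totally real abelian number field of the same degree over `ℚ` in which all the primes of `S` split
completely and which is disjoint from `F₀` (no subfield of `k₀` but `ℚ` can be embedded in `F₀`),
then it is true for `M₀`. So the equality for `M₀` follows from the equality for base changes of
large degree, with a prescribed behaviour at finitely many primes, and a failure of the equality
for one `M₀` is never isolated: for all odd primes `p` but at most one, for all `S` and all `F₀`, it
fails also for the base change of `M₀` to some field `k = F · k₀` of degree `p` or `p²` as above.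

The proof: there is a totally real abelian field `K₀` with Galois group `(ℤ/p)² × (ℤ/q)²` in which
the primes of `S` split completely, disjoint from `F₀` (`Pool.Agent.K9h41.LD.exists_test`, helper41,
with leaves by helper24, helper74 and helper76). Then `K = F · K₀` has the same Galois group over
`F` (`exists_comp`), and the fields between `F` and `K` are the fields `F · k₀`, `k₀ ⊆ K₀`
(`test_of_sub`). The `p + 1` subgroups `U` of index `p` and the subgroup `V` of index `p²` with
quotient `(ℤ/p)²` give the relation `p = ∑ Ind_U 1 - Ind_V 1` between permutation characters, and
similarly for `q`; as `p` and `q` are coprime, `1` is a combination with integral coefficients of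
the permutation characters for the fields of degree `p`, `p²`, `q`, `q²`. The rest of the proof is
as in `RatiosDescend` (helper86), for this relation. -/

namespace Pool.Agent.Results.MP_c63a07_nt.LargeDegreeBaseChange

open NumberField Pool.Agent.K9h86.RT Pool.Agent.K9h76.LB

/-- **The equality for the ratio of two successive critical values follows from the equality for
base changes of large degree.** Let `F` be a totally imaginary number field, let `M` be the data of
a pure motive `M₀` over `F` with coefficients in the number field `E` such that `Res_{F/ℚ} M₀` has
no middle Hodge type, and let the integers `m` and `m + 1` be critical. Let `p` and `q` be two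
different odd prime numbers, `S₁` and `S₂` finite sets of prime numbers, and `F₁` and `F₂` number
fields containing `F`. Suppose that the equality of Q1 at `m` holds for the base change of `M₀` to
all extensions `k` of `F` of degree `p` or `p²` with `IsTestExtension S₁ F₁ F k` and of degree `q` or
`q²` with `IsTestExtension S₂ F₂ F k`. Then it holds for `M₀`. -/
theorem result {F : Type} [Field F] [NumberField F] [IsTotallyComplex F]
    {E : Type} [Field E] [NumberField E] (M : MotiveOver F E) (m : ℤ)
    (hm : IsCritical M m) (hm' : IsCritical M (m + 1))
    {p q : ℕ} (hp : p.Prime) (hq : q.Prime) (hp2 : p ≠ 2) (hq2 : q ≠ 2) (hpq : p ≠ q)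
    (S₁ S₂ : Finset ℕ) (hS₁ : ∀ r ∈ S₁, r.Prime) (hS₂ : ∀ r ∈ S₂, r.Prime)
    (F₁ F₂ : Type) [Field F₁] [NumberField F₁] [Algebra F F₁] [Field F₂] [NumberField F₂]
    [Algebra F F₂]
    (h₁ : ∀ (k : Type) [Field k] [NumberField k] [Algebra F k],
      (Module.finrank F k = p ∨ Module.finrank F k = p ^ 2) →
        IsTestExtension (S₁ : Set ℕ) F₁ F k → RatioEquality M k m)
    (h₂ : ∀ (k : Type) [Field k] [NumberField k] [Algebra F k],
      (Module.finrank F k = q ∨ Module.finrank F k = q ^ 2) →
        IsTestExtension (S₂ : Set ℕ) F₂ F k → RatioEquality M k m) :
    RatioEquality M F m := by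
  classical
  obtain ⟨F₀, _, _, _, ⟨i₁⟩, ⟨i₂⟩⟩ := exists_sup F F₁ F₂
  refine main_lb M hm hm' hp hq hp2 hq2 hpq (S₁ ∪ S₂) (fun r hr => ?_) F₀
    fun k _ _ _ hk ht => ?_
  · rcases Finset.mem_union.1 hr with h | h
    · exact hS₁ r h
    · exact hS₂ r h
  · have e1 : (S₁ : Set ℕ) ⊆ ((S₁ ∪ S₂ : Finset ℕ) : Set ℕ) := by
      rw [Finset.coe_union]
      exact Set.subset_union_left
    have e2 : (S₂ : Set ℕ) ⊆ ((S₁ ∪ S₂ : Finset ℕ) : Set ℕ) := by
      rw [Finset.coe_union]
      exact Set.subset_union_right
    rcases hk with h | h | h | h
    · exact h₁ k (Or.inl h) (ht.mono e1 i₁)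
    · exact h₁ k (Or.inr h) (ht.mono e1 i₁)
    · exact h₂ k (Or.inl h) (ht.mono e2 i₂)
    · exact h₂ k (Or.inr h) (ht.mono e2 i₂)

end Pool.Agent.Results.MP_c63a07_nt.LargeDegreeBaseChange
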