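import Pool.Agent.K9h86.RT.As

set_option autoImplicit false

/-! # Ratios of successive critical values and hyperelementary base change

Let `F` be a totally imaginary number field and `M₀` a pure motive of rank `n` over `F` with
coefficients in the number field `E`, such that the motive `M = Res_{F/ℚ} M₀` has no middle Hodge
type. The theorem only uses the data of `M₀` in `Pool.Agent.K9h86.RT.MotiveOver` (in
`Pool.Agent.K9h86.RT.Df`): the weight, the rank, the Hodge numbers of `M`, and the characteristic
polynomials of the Frobenius elements, with coefficients in `E`, at the primes of `F` outside a
finite set. The Euler factors above the primes of this finite set are left out; if `m > w/2` this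
changes the ratio of the values at `m` and `m + 1` only by a number of `E^×`.

For a finite extension `k` of `F` let `M_k` be the base change of `M₀` to `k`. The question Q1 for
`M_k` asks if (`RatioEquality M k m`)

  `L(m, M_k) / L(m + 1, M_k) = (1 ⊗ i^([k : ℚ] / 2) Δ_k)^n`  in `(E ⊗ ℂ) / E^×`

for the completed L-functions, if `m` and `m + 1` are critical and `L(m + 1, M_k) ≠ 0`. Here
`Δ_k = √N(D) ^ [k : k₁]` if `k₁ = k₀(√D)` is the maximal CM subfield of `k`, and `Δ_k = 1` if `k`
contains no CM field.

The theorem: let `K / F` be a finite Galois extension and let `m` and `m + 1` be critical. If the
equality is true for the fixed fields `k` of the hyperelementary subgroups of `Gal(K / F)`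
(then `K / k` is a cyclic extension of a degree prime to `p`, followed downwards by a
`p`-extension), then it is true for all fields `k` between `F` and `K`, and for `F`. In particular
the continuation to `ℂ`, the existence of the values at `m` and `m + 1` and their nonvanishing is
part of the conclusion. No twist by a character occurs, only base changes.

The case in mind: `M₀` becomes automorphic over `K`. Then it is automorphic over the fixed
fields of all hyperelementary subgroups, as they are solvable, by the descent along solvable
extensions; the equality for these fields is the automorphic theorem on the ratios of the critical
values, and so it follows for `M₀` itself and over all fields between `F` and `K`.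

The proof: by Solomon's induction theorem (in the starting files, `Pool.Agent.R389.one_mem_sol`)
there are integers `c_U` with `∑ c_U Ind_U 1 = Ind_V 1`. Then
`L(s, M_{K^V}) = ∏ L(s, M_{K^U})^(c_U)`, from the inductivity of the Artin L-series with weights
from the base field (`hasSum_rind`, `lg_rel`), and the archimedean factors match as
`∑ c_U [K^U : F] = [K^V : F]`. The numbers `(i^(d_k / 2) Δ_k)^n` match as well (`delta_key`): if `n`
is even they are rational. If `n` is odd, then `F` contains a CM field; for a totally imaginary
element `y` of `F` (all conjugates are on the imaginary axis) `i^(d_k / 2) Δ_k` is, up to a factor
in `ℚ^×`, the power with the exponent `[k : F]` of the square root of `|N_{F/ℚ}(y)|`, for every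
finite extension `k` of `F`, although the maximal CM subfields of these fields are different. -/

namespace Pool.Agent.Results.MP_c63a07_nt.RatiosDescend

open NumberField Pool.Agent.K9h86.RT

/-- **The ratios of the successive critical values descend from hyperelementary base changes.** Let
`F` be a totally imaginary number field, let `M` be the data of a pure motive `M₀` of rank `n` over
`F` with coefficients in the number field `E` such that `Res_{F/ℚ} M₀` has no middle Hodge type,
let `K` be a finite Galois extension of `F`, and let the integers `m` and `m + 1` be critical.
Suppose that for every hyperelementary subgroup `U` of the Galois group the equality of Q1 at `m`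
holds for the base change of `M₀` to the fixed field of `U`. Then it holds for the base changes of
`M₀` to all fields between `F` and `K`, and for `M₀` itself. -/
theorem result {F : Type} [Field F] [NumberField F] [IsTotallyComplex F]
    {E : Type} [Field E] [NumberField E] (M : MotiveOver F E)
    (K : Type) [Field K] [NumberField K] [Algebra F K] [IsGalois F K] (m : ℤ)
    (hm : IsCritical M m) (hm' : IsCritical M (m + 1))
    (h : ∀ U : Subgroup (K ≃ₐ[F] K), Hyperelementary U →
      RatioEquality M (IntermediateField.fixedField U) m) :
    (∀ k : IntermediateField F K, RatioEquality M k m) ∧ RatioEquality M F m :=
  main M hm hm' h

end Pool.Agent.Results.MP_c63a07_nt.RatiosDescend
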